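import Pool.Agent.H30.Rc

set_option autoImplicit false

namespace Pool.Agent.Results.MP_83f734_co.FiveFacets

theorem result : ∀ F : Subfield ℝ, (Module.finrank ℚ F = 2 ∨ ∃ x ∈ F, Irrational x) →
    ∃ (A : Fin 5 → Fin 5 → ℝ) (b : Fin 5 → ℝ), (∀ i j, A i j ∈ F) ∧ (∀ i, b i ∈ F) ∧
      ∀ y : Fin 5 → ℤ, (∀ i, ∑ j, A i j * (y j : ℝ) ≤ b i) ↔
        (y = 0 ∨ ∃ k, y = Pi.single k 1) := by
  intro F h
  exact Pool.Agent.H30.Rc.main F (h.elim (Pool.Agent.H30.Rc.quad_irr F) id)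

end Pool.Agent.Results.MP_83f734_co.FiveFacets
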